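import Pool.Agent.helper12.TZ.Spec

set_option autoImplicit false

namespace Pool.Agent.TZ

open Pool.Agent.helper58.DC Pool.Agent.DI Pool.Agent.GR Pool.Agent.OB

theorem APP_chain_mul {G : Type} [Group G] (a b : G) (C : Finset (Subgroup G)) :
    chainMap (MulAut.conj (a * b)) C = chainMap (MulAut.conj a) (chainMap (MulAut.conj b) C) := by
  classical
  have h1 : ∀ P : Subgroup G, P.map (MulAut.conj (a * b)).toMonoidHom =
      (P.map (MulAut.conj b).toMonoidHom).map (MulAut.conj a).toMonoidHom := by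
    intro P
    rw [Subgroup.map_map]
    have h2 : (MulAut.conj (a * b)).toMonoidHom =
        (MulAut.conj a).toMonoidHom.comp (MulAut.conj b).toMonoidHom := by
      ext x
      simp [mul_assoc]
    rw [h2]
  ext P
  simp only [chainMap, Finset.mem_image]
  constructor
  · rintro ⟨Q, hQ, rfl⟩
    exact ⟨_, ⟨Q, hQ, rfl⟩, (h1 Q).symm⟩
  · rintro ⟨_, ⟨Q, hQ, rfl⟩, rfl⟩
    exact ⟨Q, hQ, h1 Q⟩

theorem APP_cjT_mul {G : Type} [Group G] (a b : G) (x : Tr G) :
    cjT (a * b) x = cjT a (cjT b x) := by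
  unfold cjT
  refine Prod.ext ?_ (Prod.ext ?_ ?_)
  · show a * b * x.1 * (a * b)⁻¹ = a * (b * x.1 * b⁻¹) * a⁻¹
    group
  · show a * b * x.2.1 * (a * b)⁻¹ = a * (b * x.2.1 * b⁻¹) * a⁻¹
    group
  · exact APP_chain_mul a b x.2.2

theorem APP_cjT_one {G : Type} [Group G] (x : Tr G) : cjT 1 x = x := by
  classical
  unfold cjT
  refine Prod.ext ?_ (Prod.ext ?_ ?_)
  · show 1 * x.1 * 1⁻¹ = x.1
    group
  · show 1 * x.2.1 * 1⁻¹ = x.2.1
    group
  · show chainMap (MulAut.conj 1) x.2.2 = x.2.2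
    have h1 : ∀ P : Subgroup G, P.map (MulAut.conj (1 : G)).toMonoidHom = P := by
      intro P
      have h2 : (MulAut.conj (1 : G)).toMonoidHom = MonoidHom.id G := by
        ext y
        simp
      rw [h2, Subgroup.map_id]
    ext P
    simp only [chainMap, Finset.mem_image]
    constructor
    · rintro ⟨Q, hQ, rfl⟩
      rw [h1]
      exact hQ
    · intro h
      exact ⟨P, h, h1 P⟩

/-- conjugation by an element of `D` and the twist -/
theorem APP_RL (hSN : Pool.Agent.helper58.DC.SN_stmt) {G : Type} [Group G] [Finite G] {p m : ℕ} {g : G}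
    {D : Subgroup G} {x : Tr G} (hx : x ∈ XX p g D) (i : ℕ) {κ : G} (hκ : κ ∈ D) :
    mR x ((x.1 ^ m) ^ i) = cjT κ x ↔ RL m D x i κ := by
  have hch : IsChain (· ≤ ·) (x.2.2 : Set (Subgroup G)) := hx.1.chain
  constructor
  · intro h
    have h1 : x.1 = κ * x.1 * κ⁻¹ := congrArg Prod.fst h
    have h2 : x.2.1 * (x.1 ^ m) ^ i = κ * x.2.1 * κ⁻¹ := congrArg (fun z => z.2.1) h
    have h3 : x.2.2 = chainMap (MulAut.conj κ) x.2.2 := congrArg (fun z => z.2.2) h
    refine ⟨?_, h2.symm⟩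
    unfold HX
    refine Subgroup.mem_inf.2 ⟨Subgroup.mem_inf.2 ⟨hκ, ?_⟩, ?_⟩
    · rw [Subgroup.mem_centralizer_singleton_iff]
      have h4 := congrArg (fun z => z * κ) h1
      simp only [inv_mul_cancel_right] at h4
      exact h4.symm
    · exact (hSN G x.2.2 hch κ).1 h3.symm
  · rintro ⟨h1, h2⟩
    unfold HX at h1
    obtain ⟨h1, h3⟩ := Subgroup.mem_inf.1 h1
    obtain ⟨-, h4⟩ := Subgroup.mem_inf.1 h1
    rw [Subgroup.mem_centralizer_singleton_iff] at h4
    refine Prod.ext ?_ (Prod.ext ?_ ?_)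
    · show x.1 = κ * x.1 * κ⁻¹
      rw [h4, mul_inv_cancel_right]
    · exact h2.symm
    · exact ((hSN G x.2.2 hch κ).2 h3).symm

theorem APP (hBRD : BRD_stmt) (hHDV : HDV_stmt) (hABS : ABS_stmt) (hTXS : TXS_stmt)
    (hSN : Pool.Agent.helper58.DC.SN_stmt) : APP_stmt := by
  classical
  intro p m c M hS G _ _ g D hD hcomm hm hz f hf ζ hζ
  haveI : Fact p.Prime := ⟨hS.pr⟩
  obtain ⟨act, α, β, γ, hact, hα, cα, cβ, cγ, b1, b2, h4, hw⟩ := hBRD G p g D hcomm
  obtain ⟨wa, wα, wβ, wγ⟩ := hw ζ hζ.cls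
  have hαn : ∀ (n : ℕ) (x : XX p g D),
      (((α ^ n) x : XX p g D) : Tr G) = mR (x : Tr G) ((x : Tr G).1 ^ n) := by
    intro n
    induction n with
    | zero =>
      intro x
      show (x : Tr G) = mR (x : Tr G) ((x : Tr G).1 ^ 0)
      unfold mR
      simp
    | succ n ih =>
      intro x
      rw [pow_succ', Equiv.Perm.mul_apply, hα, ih x]
      unfold mR
      refine Prod.ext rfl (Prod.ext ?_ rfl)
      show (x : Tr G).2.1 * (x : Tr G).1 ^ n * (x : Tr G).1 = (x : Tr G).2.1 * (x : Tr G).1 ^ (n + 1)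
      rw [mul_assoc, ← pow_succ]
  have hσ : ∀ (i : ℕ) (x : XX p g D),
      ((((α ^ m) ^ i) x : XX p g D) : Tr G) = mR (x : Tr G) (((x : Tr G).1 ^ m) ^ i) := by
    intro i x
    rw [← pow_mul, hαn, pow_mul]
  have hτ : ∀ (n : ℕ) (x : XX p g D),
      ((((((α * β * γ) ^ 4) ^ n) x : XX p g D)) : Tr G) = cjT (g ^ n) (x : Tr G) := by
    intro n
    induction n with
    | zero =>
      intro x
      show (x : Tr G) = cjT (g ^ 0) (x : Tr G)
      rw [pow_zero, APP_cjT_one]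
    | succ n ih =>
      intro x
      rw [pow_succ', Equiv.Perm.mul_apply, h4, ih x, ← APP_cjT_mul, ← pow_succ']
  have hfree : ∀ (d : D) (x : XX p g D), act d x = x → d = 1 := by
    intro d x h
    have h1 : cjT (d : G) (x : Tr G) = (x : Tr G) := by
      rw [← hact]
      exact congrArg _ h
    have h2 : mR (x : Tr G) (((x : Tr G).1 ^ m) ^ 0) = cjT (d : G) (x : Tr G) := by
      rw [h1]
      unfold mR
      simp
    obtain ⟨h3, h5⟩ := (APP_RL hSN (m := m) x.2 0 d.2).1 h2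
    rw [pow_zero, mul_one] at h5
    have h6 : (d : G) * (x : Tr G).2.1 = (x : Tr G).2.1 * d := by
      have h7 := congrArg (fun z => z * (d : G)) h5
      simpa using h7
    have h8 := x.2.2.2.2.2 d h3 h6
    exact Subtype.ext h8
  choose k hk using hm
  obtain ⟨A, hA⟩ : ∃ A : ℕ, ∀ t : G, k t ≤ A := by
    haveI := Fintype.ofFinite G
    exact ⟨Finset.univ.sup k, fun t => Finset.le_sup (Finset.mem_univ t)⟩
  have hAp : ∀ t : G, (t ^ m) ^ p ^ A = 1 := by
    intro t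
    obtain ⟨e, he⟩ := Nat.exists_eq_add_of_le (hA t)
    rw [he, pow_add, pow_mul, hk t, one_pow]
  have hσA : (α ^ m) ^ p ^ A = 1 := by
    ext x : 1
    apply Subtype.ext
    rw [hσ, hAp]
    show mR (x : Tr G) 1 = (x : Tr G)
    unfold mR
    simp
  have hpow : ((α * β * γ) ^ 4) ^ m = act ⟨g ^ m, hz⟩ := by
    ext x : 1
    apply Subtype.ext
    rw [hτ, hact]
  have hint : ∀ x : XX p g D, IntAt M (wt g ζ (x : Tr G)) := by
    intro x
    unfold wt
    exact IntAt.mul hS (IntAt.pow hS (IntAt.neg (IntAt.one hS)) _) (hζ.int _)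
  haveI : Finite (Tr G) := inferInstance
  haveI : Finite (XX p g D) := inferInstance
  have hXq : ∀ (a : ℕ) (u : ZMod (p ^ c)),
      (Subtype.val : XX p g D → Tr G) '' (Xq p act f (α ^ m) a u) = {x : Tr G | x ∈ XX p g D ∧
      ∃ κ : D, QK p m a D x κ ∧ f κ = Multiplicative.ofAdd u} := by
    intro a u
    have key : ∀ (x : XX p g D) (i : ℕ) (κ : D), ((α ^ m) ^ i) x = act κ x ↔ RL m D (x : Tr G) i κ := by
      intro x i κ
      rw [← APP_RL hSN x.2 i κ.2, ← hσ, ← hact]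
      exact Subtype.ext_iff
    ext x
    constructor
    · rintro ⟨x, ⟨h1, κ, h2, h3⟩, rfl⟩
      refine ⟨x.2, κ, ⟨(key x _ κ).1 h2, ?_⟩, h3⟩
      intro i hi1 hi2 κ' h5
      have h6 : κ' ∈ D := by
        have h7 := h5.1
        unfold HX at h7
        exact (Subgroup.mem_inf.1 (Subgroup.mem_inf.1 h7).1).1
      exact h1 i hi1 hi2 ⟨κ', h6⟩ ((key x i ⟨κ', h6⟩).2 h5)
    · rintro ⟨hx, κ, ⟨h1, h2⟩, h3⟩
      refine ⟨⟨x, hx⟩, ⟨?_, κ, (key ⟨x, hx⟩ _ κ).2 h1, h3⟩, rfl⟩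
      intro i hi1 hi2 κ' h5
      exact h2 i hi1 hi2 κ' ((key ⟨x, hx⟩ i κ').1 h5)
  obtain ⟨r, hr, hsum⟩ := hABS p c m A M hS D (XX p g D) act (fun x => wt g ζ (x : Tr G)) f
    ⟨g ^ m, hz⟩ α β γ hfree hint wa wα wβ wγ cα cβ cγ b1 b2 hpow hσA hf (by
      intro a u
      obtain ⟨v, hv, e⟩ := hHDV p m c a M hS G g D hD hcomm (fun t => ⟨k t, hk t⟩) ζ hζ f u
      refine ⟨v, hv, ?_⟩
      rw [← e, ← hXq a u]
      exact (finsum_mem_image (Subtype.val_injective.injOn)).symm)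
  refine ⟨r, hr, ?_⟩
  rw [← hTXS G p g D hD hcomm ζ, ← hsum]
  exact (finsum_set_coe_eq_finsum_mem (XX p g D)).symm

end Pool.Agent.TZ
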